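import Pool.Agent.Q129.AAC.Overlap

/-!
# Bad graphs in the union of the intervals of all partitions
-/

set_option autoImplicit false

namespace Pool.Agent.Q129.AAC

open Finset

variable {n r : ℕ}

/-- Permuting the parts. -/
theorem compat_comp (S : Set (Fin r)) (f : Fin n → Fin r) (G : SimpleGraph (Fin n))
    (σ : Fin r → Fin r) (hσ : σ ∈ KS S) (h : Compat S f G) : Compat S (σ ∘ f) G := by
  rw [mem_KS] at hσ
  intro u v hne he
  have he' : f u = f v := hσ.1.injective he
  rw [h u v hne he']
  exact (hσ.2 (f u)).symm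

theorem bal_comp (m : ℕ) (S : Set (Fin r)) (f : Fin n → Fin r) (σ : Fin r → Fin r)
    (hσ : σ ∈ KS S) (h : Bal m f) : Bal m (σ ∘ f) := by
  classical
  rw [mem_KS] at hσ
  intro i
  obtain ⟨j, hj⟩ := hσ.1.surjective i
  refine (h j).trans (Finset.card_le_card ?_)
  intro v hv
  simp only [mem_filter, mem_univ, true_and, Function.comp_apply] at hv ⊢
  rw [hv, hj]

theorem surj_of_bal (m : ℕ) (hm : 2 ≤ m) (f : Fin n → Fin r) (h : Bal m f) :
    Function.Surjective f := by
  classical
  intro i
  have h1 := h i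
  have h2 : 0 < r := (Nat.zero_le _).trans_lt i.2
  have h3 : 0 < (univ.filter (fun v => f v = i)).card := lt_of_lt_of_le (by positivity) h1
  obtain ⟨v, hv⟩ := Finset.card_pos.1 h3
  exact ⟨v, by simpa using hv⟩

/-- Number of balanced partitions compatible with a graph which has one of them. -/
theorem KS_le_card (m : ℕ) (hm : 2 ≤ m) (S : Set (Fin r)) (f : Fin n → Fin r) (hf : Bal m f)
    (G : SimpleGraph (Fin n)) (h : Compat S f G) (bal : Finset (Fin n → Fin r))
    (hbal : ∀ g, g ∈ bal ↔ Bal m g ∧ Compat S g G) : (KS S).card ≤ bal.card := by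
  classical
  apply Finset.card_le_card_of_injOn (fun σ : Fin r → Fin r => σ ∘ f)
  · intro σ hσ
    rw [mem_coe] at hσ
    rw [mem_coe, hbal]
    exact ⟨bal_comp m S f σ hσ hf, compat_comp S f G σ hσ h⟩
  · intro σ _ σ' _ he
    exact (surj_of_bal m hm f hf).injective_comp_right he

theorem class_bound (m : ℕ) (hm : 2 ≤ m) (hr : 0 < r) (hrn : r ≤ n) (S : Set (Fin r))
    (P : SimpleGraph (Fin n) → Prop) (ε : ℝ)
    (hbad : ∀ f : Fin n → Fin r, Bal m f →
      ({G : SimpleGraph (Fin n) | Compat S f G ∧ ¬ P G}.ncard : ℝ) ≤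
        ε * {G : SimpleGraph (Fin n) | Compat S f G}.ncard)
    (hC1 : (r : ℝ) ^ n * (1 / 2) ^ (m * m) ≤ 1) (hC2 : (1 + (r : ℝ) * (1 / 2) ^ m) ^ n ≤ 3)
    (f0 : Fin n → Fin r) (hf0 : Bal m f0)
    (hunb : ∀ f : Fin n → Fin r, ¬ Bal m f →
      (r : ℝ) ^ n * ((r : ℝ) ^ n * 2 ^ (crs f).card) ≤ ε * 2 ^ (crs f0).card) :
    ({G : SimpleGraph (Fin n) | (∃ f : Fin n → Fin r, Compat S f G) ∧ ¬ P G}.ncard : ℝ) ≤
      8 * ε * {G : SimpleGraph (Fin n) | ∃ f : Fin n → Fin r, Compat S f G}.ncard := by
  classical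
  -- passing to finsets
  have hfin : ∀ (Q : SimpleGraph (Fin n) → Prop) [DecidablePred Q],
      ({G : SimpleGraph (Fin n) | Q G}.ncard : ℝ) =
        ((univ.filter (fun G : SimpleGraph (Fin n) => Q G)).card : ℝ) := by
    intro Q _
    rw [← Set.ncard_coe_finset]
    congr 2
    ext G
    simp
  have hrpos : (0 : ℝ) < (r : ℝ) ^ n := by
    have : (0 : ℝ) < r := by exact_mod_cast hr
    positivity
  set k : ℝ := ((KS S).card : ℝ) with hk
  have hk1 : (1 : ℝ) ≤ k := by
    rw [hk]
    exact_mod_cast KS_pos S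
  have hkr : k ≤ (r : ℝ) ^ n := by
    have h1 : (KS S).card ≤ r ^ n := (KS_le S).trans (Nat.pow_le_pow_right hr hrn)
    rw [hk]
    exact_mod_cast h1
  set bal : Finset (Fin n → Fin r) := univ.filter (fun f => Bal m f) with hbal
  set W : ℝ := ∑ f ∈ bal, (2 : ℝ) ^ (crs f).card with hW
  have hWf0 : (2 : ℝ) ^ (crs f0).card ≤ W :=
    Finset.single_le_sum (f := fun f => (2 : ℝ) ^ (crs f).card)
      (fun f _ => by positivity) (by simp [hbal, hf0])
  have hWpos : 0 < W := lt_of_lt_of_le (by positivity) hWf0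
  have hI : ∀ f : Fin n → Fin r,
      ((univ.filter (fun G : SimpleGraph (Fin n) => Compat S f G)).card : ℝ) =
        2 ^ (crs f).card := by
    intro f
    rw [← hfin, ncard_compat]
    push_cast
    rfl
  set A : Finset (SimpleGraph (Fin n)) :=
    univ.filter (fun G => ∃ f : Fin n → Fin r, Compat S f G) with hA
  set X : SimpleGraph (Fin n) → ℝ := fun G => ((bal.filter (fun f => Compat S f G)).card : ℝ)
    with hX
  have hX' : ∀ G, X G = ∑ f ∈ bal, (if Compat S f G then (1 : ℝ) else 0) := by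
    intro G
    simp [hX]
  have hA' : ∀ f : Fin n → Fin r, A.filter (fun G => Compat S f G) =
      univ.filter (fun G : SimpleGraph (Fin n) => Compat S f G) := by
    intro f
    ext G
    simp only [hA, mem_filter, mem_univ, true_and, and_iff_right_iff_imp]
    exact fun h => ⟨f, h⟩
  have hsum1 : ∑ G ∈ A, X G = W := by
    simp only [hX']
    rw [Finset.sum_comm]
    refine Finset.sum_congr rfl (fun f _ => ?_)
    rw [← hI f, ← hA' f]
    simp
  have hsum2 : ∑ G ∈ A, X G ^ 2 ≤ W * (4 * k) := by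
    have h1 : ∀ G, X G ^ 2 = ∑ f ∈ bal, ∑ g ∈ bal,
        (if Compat S f G ∧ Compat S g G then (1 : ℝ) else 0) := by
      intro G
      rw [sq, hX', Finset.sum_mul_sum]
      refine Finset.sum_congr rfl (fun f _ => Finset.sum_congr rfl (fun g _ => ?_))
      by_cases h1 : Compat S f G <;> by_cases h2 : Compat S g G <;> simp [h1, h2]
    simp only [h1]
    rw [Finset.sum_comm, hW, Finset.sum_mul]
    refine Finset.sum_le_sum (fun f hf => ?_)
    rw [Finset.sum_comm]
    have hf' : Bal m f := by
      simpa [hbal] using hf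
    calc ∑ g ∈ bal, ∑ G ∈ A, (if Compat S f G ∧ Compat S g G then (1 : ℝ) else 0)
        ≤ ∑ g ∈ bal, ({G : SimpleGraph (Fin n) | Compat S f G ∧ Compat S g G}.ncard : ℝ) := by
          refine Finset.sum_le_sum (fun g _ => ?_)
          rw [hfin (fun G => Compat S f G ∧ Compat S g G)]
          rw [Finset.sum_ite, Finset.sum_const_zero, add_zero, Finset.sum_const]
          rw [nsmul_eq_mul, mul_one]
          exact_mod_cast Finset.card_le_card (Finset.filter_subset_filter _ (Finset.subset_univ _))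
      _ ≤ ∑ g : Fin n → Fin r,
          ({G : SimpleGraph (Fin n) | Compat S f G ∧ Compat S g G}.ncard : ℝ) :=
          Finset.sum_le_sum_of_subset_of_nonneg (Finset.subset_univ _)
            (fun g _ _ => Nat.cast_nonneg _)
      _ ≤ 2 ^ (crs f).card * ((r : ℝ) ^ n * (1 / 2) ^ (m * m) +
            (KS S).card * (1 + r * (1 / 2) ^ m) ^ n) := total_overlap S f m hm hf'
      _ ≤ 2 ^ (crs f).card * (4 * k) := by
          apply mul_le_mul_of_nonneg_left _ (by positivity)
          have h2 : k * (1 + (r : ℝ) * (1 / 2) ^ m) ^ n ≤ k * 3 :=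
            mul_le_mul_of_nonneg_left hC2 (by linarith)
          linarith
  have hcs := sq_sum_le_card_mul_sum_sq (s := A) (f := X)
  rw [hsum1] at hcs
  have hWA : W ≤ A.card * (4 * k) := by
    have h1 : W ^ 2 ≤ (A.card : ℝ) * (W * (4 * k)) :=
      hcs.trans (mul_le_mul_of_nonneg_left hsum2 (Nat.cast_nonneg _))
    nlinarith
  have hε : 0 ≤ ε := by
    by_contra hneg
    push Not at hneg
    have h1 := hbad f0 hf0
    rw [hfin (fun G => Compat S f0 G), hI f0] at h1
    have h2 : ε * 2 ^ (crs f0).card < 0 := mul_neg_of_neg_of_pos hneg (by positivity)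
    have h3 : (0 : ℝ) ≤ ({G : SimpleGraph (Fin n) | Compat S f0 G ∧ ¬ P G}.ncard : ℝ) :=
      Nat.cast_nonneg _
    linarith
  -- the bad graphs with a balanced partition
  set B1 : Finset (SimpleGraph (Fin n)) :=
    univ.filter (fun G => (∃ f ∈ bal, Compat S f G) ∧ ¬ P G) with hB1
  set B2 : Finset (SimpleGraph (Fin n)) :=
    univ.filter (fun G => ∃ f ∈ univ.filter (fun f : Fin n → Fin r => ¬ Bal m f),
      Compat S f G) with hB2
  have hB1k : k * (B1.card : ℝ) ≤ ε * W := by
    have h1 : k * (B1.card : ℝ) ≤ ∑ G ∈ B1, X G := by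
      have h2 : ∀ G ∈ B1, k ≤ X G := by
        intro G hG
        simp only [hB1, mem_filter, mem_univ, true_and] at hG
        obtain ⟨⟨f, hf, hfG⟩, -⟩ := hG
        have hf' : Bal m f := by simpa [hbal] using hf
        have := KS_le_card m hm S f hf' G hfG (bal.filter (fun f => Compat S f G))
          (fun g => by simp [hbal])
        show ((KS S).card : ℝ) ≤ ((bal.filter (fun f => Compat S f G)).card : ℝ)
        exact_mod_cast this
      have h3 := Finset.sum_le_sum h2
      rw [Finset.sum_const, nsmul_eq_mul] at h3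
      linarith
    have h2 : ∑ G ∈ B1, X G ≤ ∑ f ∈ bal,
        ((univ.filter (fun G : SimpleGraph (Fin n) => Compat S f G ∧ ¬ P G)).card : ℝ) := by
      simp only [hX']
      rw [Finset.sum_comm]
      refine Finset.sum_le_sum (fun f _ => ?_)
      rw [Finset.sum_ite, Finset.sum_const_zero, add_zero, Finset.sum_const]
      rw [nsmul_eq_mul, mul_one]
      have h3 : B1.filter (fun G => Compat S f G) ⊆
          univ.filter (fun G : SimpleGraph (Fin n) => Compat S f G ∧ ¬ P G) := by
        intro G hG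
        simp only [hB1, mem_filter, mem_univ, true_and] at hG ⊢
        exact ⟨hG.2, hG.1.2⟩
      exact_mod_cast Finset.card_le_card h3
    refine h1.trans (h2.trans ?_)
    rw [hW, Finset.mul_sum]
    refine Finset.sum_le_sum (fun f hf => ?_)
    have hf' : Bal m f := by simpa [hbal] using hf
    have h1 := hbad f hf'
    rw [hfin (fun G => Compat S f G), hI f, hfin (fun G => Compat S f G ∧ ¬ P G)] at h1
    exact h1
  have hB2k : k * (B2.card : ℝ) ≤ ε * W := by
    have h1 : (B2.card : ℝ) ≤ ε * 2 ^ (crs f0).card / (r : ℝ) ^ n := by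
      have h2 : B2 ⊆ (univ.filter (fun f : Fin n → Fin r => ¬ Bal m f)).biUnion (fun f =>
          univ.filter (fun G : SimpleGraph (Fin n) => Compat S f G)) := by
        intro G hG
        simp only [hB2, mem_filter, mem_univ, true_and] at hG
        obtain ⟨f, hf, hfG⟩ := hG
        simp only [mem_biUnion, mem_univ, mem_filter, true_and]
        exact ⟨f, hf, hfG⟩
      have h3 : (B2.card : ℝ) ≤ ∑ f ∈ univ.filter (fun f : Fin n → Fin r => ¬ Bal m f),
          ((univ.filter (fun G : SimpleGraph (Fin n) => Compat S f G)).card : ℝ) := by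
        exact_mod_cast (Finset.card_le_card h2).trans Finset.card_biUnion_le
      refine h3.trans ?_
      have h4 : ∀ f ∈ univ.filter (fun f : Fin n → Fin r => ¬ Bal m f),
          ((univ.filter (fun G : SimpleGraph (Fin n) => Compat S f G)).card : ℝ) ≤
            ε * 2 ^ (crs f0).card / (r : ℝ) ^ n / (r : ℝ) ^ n := by
        intro f hf
        have hf' : ¬ Bal m f := by simpa using hf
        rw [hI f, le_div_iff₀ hrpos, le_div_iff₀ hrpos]
        have h5 := hunb f hf'
        linarith
      refine (Finset.sum_le_sum h4).trans ?_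
      rw [Finset.sum_const, nsmul_eq_mul]
      have h5 : ((univ.filter (fun f : Fin n → Fin r => ¬ Bal m f)).card : ℝ) ≤ (r : ℝ) ^ n := by
        have h5 := Finset.card_le_card
          (Finset.filter_subset (fun f : Fin n → Fin r => ¬ Bal m f) univ)
        rw [Finset.card_univ, Fintype.card_fun, Fintype.card_fin, Fintype.card_fin] at h5
        exact_mod_cast h5
      have h6 : (0 : ℝ) ≤ ε * 2 ^ (crs f0).card / (r : ℝ) ^ n / (r : ℝ) ^ n := by positivity
      refine (mul_le_mul_of_nonneg_right h5 h6).trans ?_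
      rw [mul_div_cancel₀ _ hrpos.ne']
    calc k * (B2.card : ℝ) ≤ (r : ℝ) ^ n * (ε * 2 ^ (crs f0).card / (r : ℝ) ^ n) :=
          mul_le_mul hkr h1 (Nat.cast_nonneg _) hrpos.le
      _ = ε * 2 ^ (crs f0).card := by rw [mul_div_cancel₀ _ hrpos.ne']
      _ ≤ ε * W := mul_le_mul_of_nonneg_left hWf0 hε
  have hb : ({G : SimpleGraph (Fin n) |
      (∃ f : Fin n → Fin r, Compat S f G) ∧ ¬ P G}.ncard : ℝ) ≤ B1.card + B2.card := by
    rw [hfin (fun G => (∃ f : Fin n → Fin r, Compat S f G) ∧ ¬ P G)]
    have h1 : (univ.filter (fun G : SimpleGraph (Fin n) =>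
        (∃ f : Fin n → Fin r, Compat S f G) ∧ ¬ P G)) ⊆ B1 ∪ B2 := by
      intro G hG
      simp only [mem_filter, mem_univ, true_and] at hG
      obtain ⟨⟨f, hf⟩, hP⟩ := hG
      rw [mem_union]
      by_cases hfb : Bal m f
      · left
        simp only [hB1, hbal, mem_filter, mem_univ, true_and]
        exact ⟨⟨f, hfb, hf⟩, hP⟩
      · right
        simp only [hB2, mem_filter, mem_univ, true_and]
        exact ⟨f, hfb, hf⟩
    exact_mod_cast (Finset.card_le_card h1).trans (Finset.card_union_le _ _)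
  have hgoal : ({G : SimpleGraph (Fin n) | ∃ f : Fin n → Fin r, Compat S f G}.ncard : ℝ) =
      A.card := by
    rw [hfin (fun G => ∃ f : Fin n → Fin r, Compat S f G)]
  rw [hgoal]
  have hkpos : 0 < k := by linarith
  have h8 : ε * W ≤ ε * (A.card * (4 * k)) := mul_le_mul_of_nonneg_left hWA hε
  have h9 : k * ((B1.card : ℝ) + B2.card) ≤ k * (8 * ε * A.card) := by nlinarith
  have h10 := le_of_mul_le_mul_left h9 hkpos
  exact hb.trans h10

end Pool.Agent.Q129.AAC
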