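import Mathlib

/-!
# Counting graphs between two graphs, and partitions into cliques and independent sets
-/

set_option autoImplicit false

namespace Pool.Agent.Q129.AAC

open Finset

/-- The number of graphs between two graphs. -/
theorem ncard_interval {V : Type} [Finite V] (F B : SimpleGraph V) (h : F ≤ B) :
    {G : SimpleGraph V | F ≤ G ∧ G ≤ B}.ncard = 2 ^ (B.edgeSet \ F.edgeSet).ncard := by
  classical
  rw [← Set.ncard_powerset _ (Set.toFinite _)]
  have himg : (fun G : SimpleGraph V => G.edgeSet \ F.edgeSet) '' {G | F ≤ G ∧ G ≤ B} =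
      𝒫 (B.edgeSet \ F.edgeSet) := by
    ext X
    simp only [Set.mem_image, Set.mem_ofPred_eq, Set.mem_powerset_iff]
    constructor
    · rintro ⟨G, ⟨-, h2⟩, rfl⟩
      exact Set.sdiff_subset_sdiff_left (SimpleGraph.edgeSet_mono h2)
    · intro hX
      have hnd : ∀ e ∈ F.edgeSet ∪ X, ¬ e.IsDiag := by
        rintro e (he | he)
        · exact F.not_isDiag_of_mem_edgeSet he
        · exact B.not_isDiag_of_mem_edgeSet (hX he).1
      have hes : (SimpleGraph.fromEdgeSet (F.edgeSet ∪ X)).edgeSet = F.edgeSet ∪ X := by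
        rw [SimpleGraph.edgeSet_fromEdgeSet]
        ext e
        simp only [Set.mem_sdiff]
        constructor
        · exact fun h => h.1
        · exact fun h => ⟨h, hnd e h⟩
      refine ⟨SimpleGraph.fromEdgeSet (F.edgeSet ∪ X), ⟨?_, ?_⟩, ?_⟩
      · rw [← SimpleGraph.edgeSet_subset_edgeSet, hes]
        exact Set.subset_union_left
      · rw [← SimpleGraph.edgeSet_subset_edgeSet, hes]
        exact Set.union_subset (SimpleGraph.edgeSet_mono h) (fun e he => (hX he).1)
      · show (SimpleGraph.fromEdgeSet (F.edgeSet ∪ X)).edgeSet \ F.edgeSet = X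
        rw [hes]
        ext e
        simp only [Set.mem_sdiff, Set.mem_union]
        constructor
        · rintro ⟨h1 | h1, h2⟩
          · exact absurd h1 h2
          · exact h1
        · exact fun he => ⟨Or.inr he, (hX he).2⟩
  rw [← himg]
  symm
  apply Set.InjOn.ncard_image
  intro G hG G' hG' he
  simp only [Set.mem_ofPred_eq] at hG hG'
  apply SimpleGraph.edgeSet_injective
  have h1 := SimpleGraph.edgeSet_mono hG.1
  have h2 := SimpleGraph.edgeSet_mono hG'.1
  have e1 : G.edgeSet = (G.edgeSet \ F.edgeSet) ∪ F.edgeSet := (Set.sdiff_union_of_subset h1).symm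
  have e2 : G'.edgeSet = (G'.edgeSet \ F.edgeSet) ∪ F.edgeSet := (Set.sdiff_union_of_subset h2).symm
  rw [e1, e2]
  simp only at he
  rw [he]

variable {n r : ℕ}

/-- The ends of the pair are in different parts. -/
def Cross (f : Fin n → Fin r) : Sym2 (Fin n) → Prop :=
  Sym2.lift ⟨fun u v => f u ≠ f v, fun _ _ => propext ⟨Ne.symm, Ne.symm⟩⟩

@[simp] theorem cross_mk (f : Fin n → Fin r) (u v : Fin n) : Cross f s(u, v) ↔ f u ≠ f v := Iff.rfl

/-- The pairs with ends in different parts. -/
noncomputable def crs (f : Fin n → Fin r) : Finset (Sym2 (Fin n)) := by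
  classical exact univ.filter (fun e => Cross f e)

@[simp] theorem mem_crs (f : Fin n → Fin r) (e : Sym2 (Fin n)) : e ∈ crs f ↔ Cross f e := by
  classical simp [crs]

/-- The graph of the pairs inside the parts of `S`. -/
def FG (S : Set (Fin r)) (f : Fin n → Fin r) : SimpleGraph (Fin n) where
  Adj u v := u ≠ v ∧ f u = f v ∧ f u ∈ S
  symm := ⟨fun _ _ h => ⟨h.1.symm, h.2.1.symm, h.2.1 ▸ h.2.2⟩⟩
  loopless := ⟨fun _ h => h.1 rfl⟩

/-- The graph of all pairs which are not inside a part outside `S`. -/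
def BG (S : Set (Fin r)) (f : Fin n → Fin r) : SimpleGraph (Fin n) where
  Adj u v := u ≠ v ∧ (f u = f v → f u ∈ S)
  symm := ⟨fun _ _ h => ⟨h.1.symm, fun e => e ▸ h.2 e.symm⟩⟩
  loopless := ⟨fun _ h => h.1 rfl⟩

/-- The parts of `S` are cliques, the other parts are independent sets. -/
def Compat (S : Set (Fin r)) (f : Fin n → Fin r) (G : SimpleGraph (Fin n)) : Prop :=
  ∀ u v, u ≠ v → f u = f v → (G.Adj u v ↔ f u ∈ S)

theorem compat_iff (S : Set (Fin r)) (f : Fin n → Fin r) (G : SimpleGraph (Fin n)) :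
    Compat S f G ↔ FG S f ≤ G ∧ G ≤ BG S f := by
  constructor
  · intro h
    refine ⟨fun u v huv => ?_, fun u v huv => ?_⟩
    · obtain ⟨h1, h2, h3⟩ := huv
      exact (h u v h1 h2).2 h3
    · exact ⟨huv.ne, fun e => (h u v huv.ne e).1 huv⟩
  · rintro ⟨h1, h2⟩ u v hne he
    exact ⟨fun h => (h2 h).2 he, fun h => h1 ⟨hne, he, h⟩⟩

theorem FG_le_BG (S : Set (Fin r)) (f : Fin n → Fin r) : FG S f ≤ BG S f := by
  intro u v huv
  exact ⟨huv.1, fun _ => huv.2.2⟩

theorem diff_eq (S : Set (Fin r)) (f : Fin n → Fin r) :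
    (BG S f).edgeSet \ (FG S f).edgeSet = (crs f : Set (Sym2 (Fin n))) := by
  ext e
  induction e with
  | _ u v =>
    simp only [Set.mem_sdiff, SimpleGraph.mem_edgeSet, Finset.mem_coe, mem_crs, cross_mk]
    constructor
    · rintro ⟨h1, h2⟩ he
      exact h2 ⟨h1.1, he, h1.2 he⟩
    · intro h
      refine ⟨⟨fun e => h (congrArg f e), fun e => absurd e h⟩, fun h' => h h'.2.1⟩

/-- The number of graphs compatible with a partition. -/
theorem ncard_compat (S : Set (Fin r)) (f : Fin n → Fin r) :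
    {G : SimpleGraph (Fin n) | Compat S f G}.ncard = 2 ^ (crs f).card := by
  have h1 : {G : SimpleGraph (Fin n) | Compat S f G} = {G | FG S f ≤ G ∧ G ≤ BG S f} := by
    ext G
    exact compat_iff S f G
  rw [h1, ncard_interval _ _ (FG_le_BG S f), diff_eq, Set.ncard_coe_finset]

/-- The number of graphs compatible with two partitions. -/
theorem ncard_compat_two (S : Set (Fin r)) (f g : Fin n → Fin r) :
    {G : SimpleGraph (Fin n) | Compat S f G ∧ Compat S g G}.ncard ≤ 2 ^ (crs f ∩ crs g).card := by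
  classical
  have h1 : {G : SimpleGraph (Fin n) | Compat S f G ∧ Compat S g G} =
      {G | FG S f ⊔ FG S g ≤ G ∧ G ≤ BG S f ⊓ BG S g} := by
    ext G
    simp only [Set.mem_ofPred_eq, compat_iff, sup_le_iff, le_inf_iff]
    tauto
  rw [h1]
  by_cases h : FG S f ⊔ FG S g ≤ BG S f ⊓ BG S g
  · rw [ncard_interval _ _ h]
    apply Nat.pow_le_pow_right (by norm_num)
    rw [← Set.ncard_coe_finset]
    apply Set.ncard_le_ncard _ (Set.toFinite _)
    intro e he
    simp only [Finset.coe_inter, Set.mem_inter_iff]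
    rw [← diff_eq S f, ← diff_eq S g]
    rw [SimpleGraph.edgeSet_inf, SimpleGraph.edgeSet_sup] at he
    exact ⟨⟨he.1.1, fun h' => he.2 (Or.inl h')⟩, ⟨he.1.2, fun h' => he.2 (Or.inr h')⟩⟩
  · have : {G : SimpleGraph (Fin n) | FG S f ⊔ FG S g ≤ G ∧ G ≤ BG S f ⊓ BG S g} = ∅ := by
      ext G
      simp only [Set.mem_ofPred_eq, Set.mem_empty_iff_false, iff_false]
      exact fun h' => h (h'.1.trans h'.2)
    rw [this, Set.ncard_empty]
    exact Nat.zero_le _

end Pool.Agent.Q129.AAC
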