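import Pool.Agent.Q129.AAC.Size

/-!
# Almost all graphs with a partition into cliques and independent sets
-/

set_option autoImplicit false

namespace Pool.Agent.Q129.AAC

open Finset Filter

theorem pow_le_two_pow (r n : ℕ) : (r : ℝ) ^ n ≤ 2 ^ (r * n) := by
  rw [pow_mul]
  apply pow_le_pow_left₀ (Nat.cast_nonneg _)
  exact_mod_cast (Nat.lt_two_pow_self (n := r)).le

theorem m_lower (r n : ℕ) (hr : 1 ≤ r) (hn : 4 * r ^ 2 ≤ n) :
    (n : ℝ) / (4 * r ^ 2) ≤ ((n / (2 * r ^ 2) : ℕ) : ℝ) := by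
  have hpos : 0 < 2 * r ^ 2 := by positivity
  have h1 : n < 2 * r ^ 2 * (n / (2 * r ^ 2) + 1) := Nat.lt_mul_div_succ n hpos
  have h2 : (n : ℝ) < 2 * r ^ 2 * (((n / (2 * r ^ 2) : ℕ) : ℝ) + 1) := by exact_mod_cast h1
  have h3 : (4 : ℝ) * r ^ 2 ≤ n := by exact_mod_cast hn
  have hr' : (0 : ℝ) < r ^ 2 := by
    have : (0 : ℝ) < r := by exact_mod_cast hr
    positivity
  rw [div_le_iff₀ (by positivity)]
  nlinarith

/-- Powers of `r` below `n`. -/
theorem r_bounds (r n : ℕ) (hr : 2 ≤ r) (h6 : r ^ 6 ≤ n) (hn : 16 ^ 6 ≤ n) :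
    16 * r ^ 5 ≤ n ∧ 8 * r ^ 2 ≤ n ∧ r ≤ n := by
  have h5 : 16 * r ^ 5 ≤ n := by
    rcases le_or_gt 16 r with h | h
    · calc 16 * r ^ 5 ≤ r * r ^ 5 := Nat.mul_le_mul_right _ h
        _ = r ^ 6 := by ring
        _ ≤ n := h6
    · calc 16 * r ^ 5 ≤ 16 * 16 ^ 5 := Nat.mul_le_mul_left _ (Nat.pow_le_pow_left h.le 5)
        _ = 16 ^ 6 := by norm_num
        _ ≤ n := hn
  have h2 : r ^ 2 ≤ r ^ 5 := Nat.pow_le_pow_right (by omega) (by norm_num)
  have h1 : r ≤ r ^ 5 := Nat.le_self_pow (by norm_num) r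
  refine ⟨h5, ?_, ?_⟩ <;> omega

/-- The parameters for large `n`. -/
theorem params : ∃ N : ℕ, ∀ n : ℕ, N ≤ n → ∀ r : ℕ, ∀ hr : 2 ≤ r, r ^ 6 ≤ n →
    2 ≤ n / (2 * r ^ 2) ∧ r ≤ n ∧
    (r : ℝ) ^ n * (1 / 2) ^ ((n / (2 * r ^ 2)) * (n / (2 * r ^ 2))) ≤ 1 ∧
    (1 + (r : ℝ) * (1 / 2) ^ (n / (2 * r ^ 2))) ^ n ≤ 3 ∧
    (∀ f : Fin n → Fin r, ¬ Bal (n / (2 * r ^ 2)) f →
      (crs f).card + (2 * r + 1) * n ≤ (crs (res (by omega : 0 < r) : Fin n → Fin r)).card) ∧
    (n : ℝ) / 8 ≤ (((r - 1) * (r * (n / (2 * r ^ 2))) : ℕ) : ℝ) ∧ 1 ≤ n := by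
  have ht : Tendsto (fun m : ℕ => 64 * ((m : ℝ) ^ 3 * (1 / 2) ^ m)) atTop
      (nhds (64 * 0)) :=
    (tendsto_pow_const_mul_const_pow_of_abs_lt_one 3 (by norm_num [abs_of_pos])).const_mul _
  rw [mul_zero] at ht
  obtain ⟨M, hM⟩ := eventually_atTop.1 ((ht.eventually (gt_mem_nhds (by norm_num : (0 : ℝ) < 1))))
  refine ⟨max (16 ^ 6) (64 * M ^ 3 + 1), ?_⟩
  intro n hn r hr hr6
  have hn1 : 16 ^ 6 ≤ n := (le_max_left _ _).trans hn
  have hn2 : 64 * M ^ 3 + 1 ≤ n := (le_max_right _ _).trans hn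
  obtain ⟨h16, h8, hrn⟩ := r_bounds r n hr hr6 hn1
  have hn0 : 1 ≤ n := by omega
  have hr0 : (0 : ℝ) < r := by
    have : 0 < r := by omega
    exact_mod_cast this
  have hr2 : (2 : ℝ) ≤ r := by exact_mod_cast hr
  have hnR : (0 : ℝ) < n := by exact_mod_cast hn0
  set m := n / (2 * r ^ 2) with hm
  have hpos : 0 < 2 * r ^ 2 := by positivity
  have hml : (n : ℝ) / (4 * r ^ 2) ≤ (m : ℝ) := m_lower r n (by omega) (by omega)
  have hmu : (m : ℝ) ≤ n / (2 * r ^ 2) := by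
    have := Nat.cast_div_le (α := ℝ) (m := n) (n := 2 * r ^ 2)
    push_cast at this
    exact this
  have hnm : (n : ℝ) ≤ 4 * r ^ 2 * m := by
    rw [div_le_iff₀ (by positivity)] at hml
    linarith
  have h6R : (r : ℝ) ^ 6 ≤ n := by exact_mod_cast hr6
  have h64 : (n : ℝ) ^ 2 ≤ 64 * (m : ℝ) ^ 3 := by
    have h1 : (n : ℝ) ^ 3 ≤ (4 * r ^ 2 * m) ^ 3 := pow_le_pow_left₀ hnR.le hnm 3
    have h2 : ((4 : ℝ) * r ^ 2 * m) ^ 3 = r ^ 6 * (64 * (m : ℝ) ^ 3) := by ring
    have h3 : (r : ℝ) ^ 6 * (64 * (m : ℝ) ^ 3) ≤ n * (64 * (m : ℝ) ^ 3) :=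
      mul_le_mul_of_nonneg_right h6R (by positivity)
    have h4 : (n : ℝ) * n ^ 2 ≤ n * (64 * (m : ℝ) ^ 3) := by
      calc (n : ℝ) * n ^ 2 = n ^ 3 := by ring
        _ ≤ r ^ 6 * (64 * (m : ℝ) ^ 3) := h2 ▸ h1
        _ ≤ n * (64 * (m : ℝ) ^ 3) := h3
    exact le_of_mul_le_mul_left h4 hnR
  have hMm : M ≤ m := by
    by_contra hcon
    push Not at hcon
    have h1 : (m : ℝ) ^ 3 ≤ (M : ℝ) ^ 3 :=
      pow_le_pow_left₀ (Nat.cast_nonneg _) (by exact_mod_cast hcon.le) 3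
    have h2 : ((64 * M ^ 3 + 1 : ℕ) : ℝ) ≤ (n : ℝ) := by exact_mod_cast hn2
    push_cast at h2
    have h3 : (1 : ℝ) ≤ n := by exact_mod_cast hn0
    nlinarith
  refine ⟨?_, hrn, ?_, ?_, ?_, ?_, hn0⟩
  · rw [hm, Nat.le_div_iff_mul_le hpos]
    omega
  · have h1 : (r * n : ℕ) ≤ m * m := by
      have h2 : ((16 * r ^ 5 : ℕ) : ℝ) ≤ (n : ℝ) := by exact_mod_cast h16
      push_cast at h2
      have h3 : (r : ℝ) * n ≤ m * m := by
        have h4 : (n : ℝ) / (4 * r ^ 2) * (n / (4 * r ^ 2)) ≤ m * m :=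
          mul_le_mul hml hml (by positivity) (Nat.cast_nonneg _)
        have h5 : (r : ℝ) * n ≤ n / (4 * r ^ 2) * (n / (4 * r ^ 2)) := by
          rw [div_mul_div_comm, le_div_iff₀ (by positivity)]
          nlinarith [mul_le_mul_of_nonneg_left h2 hnR.le]
        linarith
      exact_mod_cast h3
    calc (r : ℝ) ^ n * (1 / 2) ^ (m * m) ≤ 2 ^ (r * n) * (1 / 2) ^ (m * m) :=
          mul_le_mul_of_nonneg_right (pow_le_two_pow r n) (by positivity)
      _ ≤ 2 ^ (m * m) * (1 / 2) ^ (m * m) :=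
          mul_le_mul_of_nonneg_right (pow_le_pow_right₀ (by norm_num) h1) (by positivity)
      _ = 1 := by
          rw [← mul_pow]
          norm_num
  · have h1 : (n : ℝ) * (r * (1 / 2) ^ m) ≤ 1 := by
      have h2 := (hM m hMm).le
      have h3 : (n : ℝ) * r ≤ 64 * (m : ℝ) ^ 3 := by
        have h4 : (r : ℝ) ≤ n := by exact_mod_cast hrn
        nlinarith
      have h4 : (0 : ℝ) ≤ (1 / 2) ^ m := by positivity
      have h5 := mul_le_mul_of_nonneg_right h3 h4
      linarith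
    calc (1 + (r : ℝ) * (1 / 2) ^ m) ^ n ≤ (Real.exp (r * (1 / 2) ^ m)) ^ n := by
          apply pow_le_pow_left₀ (by positivity)
          rw [add_comm]
          exact Real.add_one_le_exp _
      _ = Real.exp (n * (r * (1 / 2) ^ m)) := by rw [← Real.exp_nat_mul]
      _ ≤ Real.exp 1 := Real.exp_le_exp.2 h1
      _ ≤ 3 := by
          have := Real.exp_one_lt_d9
          linarith
  · intro f hf
    rw [Bal] at hf
    push Not at hf
    obtain ⟨i, hi⟩ := hf
    have hi' : ((univ.filter (fun v => f v = i)).card : ℝ) ≤ n / (2 * r) := by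
      have h1 : ((univ.filter (fun v => f v = i)).card : ℝ) ≤ ((r * m : ℕ) : ℝ) := by
        exact_mod_cast hi.le
      refine h1.trans ?_
      push_cast
      calc (r : ℝ) * m ≤ r * (n / (2 * r ^ 2)) := mul_le_mul_of_nonneg_left hmu hr0.le
        _ = n / (2 * r) := by
            field_simp
    have h1 := crs_unbal f i hi'
    have h2 := crs_res (n := n) (by omega : 0 < r)
    have h3 : ((16 * r ^ 5 : ℕ) : ℝ) ≤ (n : ℝ) := by exact_mod_cast h16
    push_cast at h3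
    have h4 : 2 * (2 * (r : ℝ) + 1) * n + n ≤ (n : ℝ) ^ 2 / (4 * r ^ 2) := by
      rw [le_div_iff₀ (by positivity)]
      have h6 : (n : ℝ) * (16 * r ^ 5) ≤ n * n := mul_le_mul_of_nonneg_left h3 hnR.le
      have h9 : (2 * (2 * (r : ℝ) + 1) + 1) * (4 * r ^ 2) ≤ 16 * r ^ 5 := by
        have e1 : (0 : ℝ) ≤ r ^ 2 := by positivity
        have e2 : (r : ℝ) ^ 2 * 4 ≤ r ^ 2 * (r * r) := mul_le_mul_of_nonneg_left (by nlinarith) e1
        have e3 : (r : ℝ) ^ 2 * 4 * r ≤ r ^ 2 * (r * r) * r := mul_le_mul_of_nonneg_right e2 hr0.le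
        nlinarith
      calc (2 * (2 * (r : ℝ) + 1) * n + n) * (4 * r ^ 2)
          = (n : ℝ) * ((2 * (2 * (r : ℝ) + 1) + 1) * (4 * (r : ℝ) ^ 2)) := by ring
        _ ≤ (n : ℝ) * (16 * (r : ℝ) ^ 5) := mul_le_mul_of_nonneg_left h9 hnR.le
        _ ≤ (n : ℝ) * n := h6
        _ = (n : ℝ) ^ 2 := by ring
    have h5 : ((crs f).card : ℝ) + (2 * r + 1) * n ≤
        ((crs (res (by omega : 0 < r) : Fin n → Fin r)).card : ℝ) := by linarith
    exact_mod_cast h5
  · have e1 : (((r - 1 : ℕ)) : ℝ) = (r : ℝ) - 1 := by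
      rw [Nat.cast_sub (by omega)]
      simp
    push_cast
    rw [e1]
    have h1 : (n : ℝ) / (4 * r) ≤ r * m := by
      calc (n : ℝ) / (4 * r) = r * (n / (4 * r ^ 2)) := by
            field_simp
        _ ≤ r * m := mul_le_mul_of_nonneg_left hml hr0.le
    calc (n : ℝ) / 8 ≤ ((r : ℝ) - 1) * (n / (4 * r)) := by
          rw [div_le_iff₀ (by norm_num)]
          have : ((r : ℝ) - 1) * (n / (4 * r)) * 8 = n * (2 * (r - 1) / r) := by
            field_simp
            ring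
          rw [this]
          have h2 : (1 : ℝ) ≤ 2 * (r - 1) / r := by
            rw [le_div_iff₀ hr0]
            linarith
          nlinarith
      _ ≤ ((r : ℝ) - 1) * (r * m) := mul_le_mul_of_nonneg_left h1 (by linarith)

theorem nbr_diff {n r : ℕ} (S : Set (Fin r)) (f : Fin n → Fin r) (v : Fin n) (M : ℕ)
    (hM : ∀ j, M ≤ (univ.filter (fun w => f w = j)).card) :
    ((FG S f).neighborSet v).ncard + (r - 1) * M ≤ ((BG S f).neighborSet v).ncard := by
  classical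
  have h1 : (r - 1) * M ≤ (univ.filter (fun w => f w ≠ f v)).card := by
    have e1 : (univ.filter (fun w => f w ≠ f v)).card =
        ∑ j ∈ univ.erase (f v), (univ.filter (fun w => f w = j)).card := by
      rw [Finset.card_eq_sum_card_fiberwise (f := f) (t := univ.erase (f v))]
      · refine Finset.sum_congr rfl (fun j hj => ?_)
        congr 1
        ext w
        simp only [mem_filter, mem_univ, true_and, and_iff_right_iff_imp]
        rintro rfl
        exact (Finset.mem_erase.1 hj).1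
      · intro w hw
        have hw' : f w ≠ f v := by simpa using hw
        rw [mem_coe, Finset.mem_erase]
        exact ⟨hw', mem_univ _⟩
    rw [e1]
    have e2 : ∑ _j ∈ (univ : Finset (Fin r)).erase (f v), M ≤
        ∑ j ∈ univ.erase (f v), (univ.filter (fun w => f w = j)).card :=
      Finset.sum_le_sum (fun j _ => hM j)
    rw [Finset.sum_const, Finset.card_erase_of_mem (mem_univ _), Finset.card_univ,
      Fintype.card_fin, smul_eq_mul] at e2
    exact e2
  refine (Nat.add_le_add_left h1 _).trans ?_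
  rw [← Set.ncard_coe_finset, ← Set.ncard_union_eq _ (Set.toFinite _) (Set.toFinite _)]
  · apply Set.ncard_le_ncard _ (Set.toFinite _)
    rintro w (hw | hw)
    · exact FG_le_BG S f hw
    · have hw' : f w ≠ f v := by simpa using hw
      exact ⟨fun e => hw' (by rw [e]), fun e => absurd e.symm hw'⟩
  · rw [Set.disjoint_left]
    intro w hw hw'
    have h1 : f w ≠ f v := by simpa using hw'
    exact h1 hw.2.1.symm

/-- A property of almost all graphs between any two graphs with large uncertainty holds for almost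
all graphs whose vertices can be partitioned into `r` parts, those of `S` cliques and the others
independent, uniformly for all `r ≤ n ^ (1 / 6)` and all `S`. -/
theorem almost_all (P : ∀ n : ℕ, SimpleGraph (Fin n) → Prop)
    (hP : ∀ c ε : ℝ, 0 < c → 0 < ε → ∃ N : ℕ, ∀ n : ℕ, N ≤ n → ∀ F B : SimpleGraph (Fin n),
      F ≤ B →
      (∀ v, ((F.neighborSet v).ncard : ℝ) + c * n ≤ (B.neighborSet v).ncard ∨
        ∃ u, ((F.neighborSet v).ncard : ℝ) + (B.neighborSet v).ncard + c * n ≤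
          (F.neighborSet u).ncard + (B.neighborSet u).ncard) →
      ({G : SimpleGraph (Fin n) | F ≤ G ∧ G ≤ B ∧ ¬ P n G}.ncard : ℝ) ≤
        ε * {G : SimpleGraph (Fin n) | F ≤ G ∧ G ≤ B}.ncard)
    (δ : ℝ) (hδ : 0 < δ) :
    ∃ N : ℕ, ∀ n : ℕ, N ≤ n → ∀ r : ℕ, 2 ≤ r → r ^ 6 ≤ n → ∀ S : Set (Fin r),
      ({G : SimpleGraph (Fin n) | (∃ f : Fin n → Fin r, ∀ u v, u ≠ v → f u = f v →
        (G.Adj u v ↔ f u ∈ S)) ∧ ¬ P n G}.ncard : ℝ) ≤
        δ * {G : SimpleGraph (Fin n) | ∃ f : Fin n → Fin r, ∀ u v, u ≠ v → f u = f v →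
          (G.Adj u v ↔ f u ∈ S)}.ncard := by
  set ε : ℝ := δ / 8 with hε
  have hεpos : 0 < ε := by positivity
  obtain ⟨N1, hN1⟩ := hP (1 / 8) ε (by norm_num) hεpos
  obtain ⟨N2, hN2⟩ := params
  have ht : Tendsto (fun n : ℕ => ((1 : ℝ) / 2) ^ n) atTop (nhds 0) :=
    tendsto_pow_atTop_nhds_zero_of_lt_one (by norm_num) (by norm_num)
  obtain ⟨N3, hN3⟩ := eventually_atTop.1 (ht.eventually (gt_mem_nhds hεpos))
  refine ⟨max N1 (max N2 N3), fun n hn r hr hr6 S => ?_⟩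
  have h1 := hN1 n ((le_max_left _ _).trans hn)
  obtain ⟨h2, h3, h4, h5, h6, h7, h8⟩ :=
    hN2 n ((le_max_left _ _).trans ((le_max_right _ _).trans hn)) r hr hr6
  have h9 := (hN3 n ((le_max_right _ _).trans ((le_max_right _ _).trans hn))).le
  have hbal : Bal (n / (2 * r ^ 2)) (res (by omega : 0 < r) : Fin n → Fin r) := by
    by_contra hcon
    have h7 := h6 _ hcon
    have h8 : 0 < (2 * r + 1) * n := by positivity
    omega
  have key := class_bound (n / (2 * r ^ 2)) h2 (by omega) h3 S (P n) ε ?_ h4 h5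
    (res (by omega : 0 < r)) hbal ?_
  · have e1 : 8 * ε = δ := by
      rw [hε]
      ring
    rw [e1] at key
    exact key
  · intro f hf
    have e1 : {G : SimpleGraph (Fin n) | Compat S f G ∧ ¬ P n G} =
        {G | FG S f ≤ G ∧ G ≤ BG S f ∧ ¬ P n G} := by
      ext G
      simp only [Set.mem_ofPred_eq, compat_iff, and_assoc]
    have e2 : {G : SimpleGraph (Fin n) | Compat S f G} = {G | FG S f ≤ G ∧ G ≤ BG S f} := by
      ext G
      exact compat_iff S f G
    rw [e1, e2]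
    apply h1 _ _ (FG_le_BG S f)
    intro v
    left
    have h10 := nbr_diff S f v (r * (n / (2 * r ^ 2))) hf
    have h11 : (((FG S f).neighborSet v).ncard : ℝ) +
        (((r - 1) * (r * (n / (2 * r ^ 2))) : ℕ) : ℝ) ≤ (((BG S f).neighborSet v).ncard : ℝ) := by
      exact_mod_cast h10
    linarith
  · intro f hf
    have h7 := h6 f hf
    calc (r : ℝ) ^ n * ((r : ℝ) ^ n * 2 ^ (crs f).card)
        ≤ 2 ^ (r * n) * (2 ^ (r * n) * 2 ^ (crs f).card) := by
          apply mul_le_mul (pow_le_two_pow r n) _ (by positivity) (by positivity)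
          exact mul_le_mul_of_nonneg_right (pow_le_two_pow r n) (by positivity)
      _ = (1 / 2) ^ n * 2 ^ ((crs f).card + (2 * r + 1) * n) := by
          have e3 : (crs f).card + (2 * r + 1) * n = n + (r * n + (r * n + (crs f).card)) := by
            ring
          have e4 : ((1 : ℝ) / 2) ^ n * 2 ^ n = 1 := by
            rw [← mul_pow]
            norm_num
          rw [e3, pow_add 2 n, pow_add 2 (r * n), pow_add 2 (r * n), ← mul_assoc ((1 / 2) ^ n),
            e4, one_mul]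
      _ ≤ (1 / 2) ^ n * 2 ^ (crs (res (by omega : 0 < r) : Fin n → Fin r)).card :=
          mul_le_mul_of_nonneg_left (pow_le_pow_right₀ (by norm_num) h7) (by positivity)
      _ ≤ ε * 2 ^ (crs (res (by omega : 0 < r) : Fin n → Fin r)).card :=
          mul_le_mul_of_nonneg_right h9 (by positivity)

end Pool.Agent.Q129.AAC
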