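import Pool.Agent.Q129.AAC.Count

/-!
# Two partitions: few graphs are compatible with both
-/

set_option autoImplicit false

namespace Pool.Agent.Q129.AAC

open Finset

variable {n r : ℕ}

/-- All parts are large. -/
def Bal (m : ℕ) (f : Fin n → Fin r) : Prop :=
  ∀ i, r * m ≤ (univ.filter (fun v => f v = i)).card

/-- The permutations of the parts which preserve the types. -/
noncomputable def KS (S : Set (Fin r)) : Finset (Fin r → Fin r) := by
  classical exact univ.filter (fun σ => Function.Bijective σ ∧ ∀ i, σ i ∈ S ↔ i ∈ S)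

theorem mem_KS (S : Set (Fin r)) (σ : Fin r → Fin r) :
    σ ∈ KS S ↔ Function.Bijective σ ∧ ∀ i, σ i ∈ S ↔ i ∈ S := by
  classical simp [KS]

theorem id_mem_KS (S : Set (Fin r)) : id ∈ KS S := by
  rw [mem_KS]
  exact ⟨Function.bijective_id, fun _ => Iff.rfl⟩

theorem KS_pos (S : Set (Fin r)) : 1 ≤ (KS S).card := Finset.card_pos.2 ⟨id, id_mem_KS S⟩

theorem KS_le (S : Set (Fin r)) : (KS S).card ≤ r ^ r := by
  have h := Finset.card_le_card (Finset.subset_univ (KS S))
  rw [Finset.card_univ, Fintype.card_fun, Fintype.card_fin] at h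
  exact h

theorem overlap (S : Set (Fin r)) (f g : Fin n → Fin r) (m : ℕ) (hm : 2 ≤ m) (hf : Bal m f)
    (G : SimpleGraph (Fin n)) (hG : Compat S f G) (hG' : Compat S g G) :
    m * m ≤ (crs f \ crs g).card ∨
      ∃ σ ∈ KS S, m * (univ.filter (fun v => g v ≠ σ (f v))).card ≤
        (crs f \ crs g).card := by
  classical
  have h1 : ∀ i, ∃ j, m ≤ (univ.filter (fun v => f v = i ∧ g v = j)).card := by
    intro i
    have hne : (univ : Finset (Fin r)).Nonempty := ⟨i, mem_univ i⟩
    obtain ⟨j, -, hj⟩ := Finset.exists_le_card_fiber_of_mul_le_card_of_maps_to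
      (s := univ.filter (fun v => f v = i)) (t := univ) (f := g) (n := m)
      (fun a _ => mem_univ _) hne (by simpa using hf i)
    refine ⟨j, ?_⟩
    rw [filter_filter] at hj
    exact hj
  choose σ hσ using h1
  have hmem : ∀ u v, s(u, v) ∈ crs f \ crs g ↔ f u ≠ f v ∧ g u = g v := by
    intro u v
    simp
  by_cases hinj : Function.Injective σ
  · right
    have hsurj : Function.Surjective σ := Finite.surjective_of_injective hinj
    have hK : σ ∈ KS S := by
      rw [mem_KS]
      refine ⟨⟨hinj, hsurj⟩, fun i => ?_⟩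
      obtain ⟨u, hu, v, hv, huv⟩ := Finset.one_lt_card.1 (lt_of_lt_of_le hm (hσ i))
      simp only [mem_filter, mem_univ, true_and] at hu hv
      have h1 := hG u v huv (hu.1.trans hv.1.symm)
      have h2 := hG' u v huv (hu.2.trans hv.2.symm)
      rw [hu.1] at h1
      rw [hu.2] at h2
      exact h2.symm.trans h1
    refine ⟨σ, hK, ?_⟩
    choose τ hτ using hsurj
    set T := univ.filter (fun v => g v ≠ σ (f v)) with hT
    set U : Fin n → Finset (Fin n) := fun v =>
      univ.filter (fun u => f u = τ (g v) ∧ g u = σ (τ (g v))) with hU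
    have hc : m * T.card ≤ (T.sigma (fun v => U v)).card := by
      rw [card_sigma, mul_comm]
      have : ∑ _v ∈ T, m ≤ ∑ v ∈ T, (U v).card := Finset.sum_le_sum (fun v _ => hσ (τ (g v)))
      simpa using this
    refine hc.trans ?_
    apply Finset.card_le_card_of_injOn (fun p : (Σ _ : Fin n, Fin n) => s(p.1, p.2))
    · rintro ⟨v, u⟩ hp
      simp only [coe_sigma, Set.mem_sigma_iff, mem_coe, hT, hU, mem_filter, mem_univ, true_and] at hp
      show s(v, u) ∈ ((crs f \ crs g : Finset _) : Set (Sym2 (Fin n)))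
      rw [mem_coe, hmem]
      obtain ⟨hv, h2, h3⟩ := hp
      rw [hτ] at h3
      refine ⟨fun he => hv ?_, h3.symm⟩
      rw [he, h2, hτ]
    · rintro ⟨v, u⟩ hp ⟨v', u'⟩ hp' he
      simp only [coe_sigma, Set.mem_sigma_iff, mem_coe, hT, hU, mem_filter, mem_univ,
        true_and] at hp hp'
      simp only [Sym2.eq_iff] at he
      rcases he with ⟨rfl, rfl⟩ | ⟨rfl, rfl⟩
      · rfl
      · exfalso
        apply hp.1
        obtain ⟨-, h2, h3⟩ := hp'
        rw [h3, h2]
  · left
    rw [Function.Injective] at hinj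
    push Not at hinj
    obtain ⟨i, i', he, hne⟩ := hinj
    set A := univ.filter (fun v => f v = i ∧ g v = σ i) with hA
    set A' := univ.filter (fun v => f v = i' ∧ g v = σ i') with hA'
    have hc : m * m ≤ (A ×ˢ A').card := by
      rw [card_product]
      exact Nat.mul_le_mul (hσ i) (hσ i')
    refine hc.trans ?_
    apply Finset.card_le_card_of_injOn (fun p : Fin n × Fin n => s(p.1, p.2))
    · rintro ⟨u, v⟩ hp
      simp only [coe_product, Set.mem_prod, mem_coe, hA, hA', mem_filter, mem_univ, true_and] at hp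
      show s(u, v) ∈ ((crs f \ crs g : Finset _) : Set (Sym2 (Fin n)))
      rw [mem_coe, hmem]
      obtain ⟨⟨h2, h3⟩, h4, h5⟩ := hp
      rw [h2, h3, h4, h5]
      exact ⟨hne, he⟩
    · rintro ⟨u, v⟩ hp ⟨u', v'⟩ hp' he'
      simp only [coe_product, Set.mem_prod, mem_coe, hA, hA', mem_filter, mem_univ,
        true_and] at hp hp'
      simp only [Sym2.eq_iff] at he'
      rcases he' with ⟨rfl, rfl⟩ | ⟨rfl, rfl⟩
      · rfl
      · exfalso
        apply hne
        rw [← hp.1.1, hp'.2.1]

/-- The sum over all functions of a weight to the number of the differences with a given one. -/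
theorem sum_pow_diff (h : Fin n → Fin r) (x : ℝ) :
    ∑ g : Fin n → Fin r, x ^ (univ.filter (fun v => g v ≠ h v)).card =
      ∏ v : Fin n, ∑ c : Fin r, (if c ≠ h v then x else 1) := by
  classical
  rw [Finset.prod_univ_sum]
  simp only [Fintype.piFinset_univ]
  refine Finset.sum_congr rfl (fun g _ => ?_)
  rw [Finset.prod_ite, Finset.prod_const, Finset.prod_const_one, mul_one]

theorem sum_pow_diff_le (h : Fin n → Fin r) (x : ℝ) (hx : 0 ≤ x) :
    ∑ g : Fin n → Fin r, x ^ (univ.filter (fun v => g v ≠ h v)).card ≤ (1 + r * x) ^ n := by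
  classical
  rw [sum_pow_diff]
  calc ∏ v : Fin n, ∑ c : Fin r, (if c ≠ h v then x else 1)
      ≤ ∏ _v : Fin n, (1 + r * x) := by
        apply Finset.prod_le_prod
        · intro v _
          apply Finset.sum_nonneg
          intro c _
          split_ifs <;> linarith
        · intro v _
          have : ∀ c : Fin r, (if c ≠ h v then x else 1) ≤ x + (if c = h v then 1 else 0) := by
            intro c
            by_cases hc : c = h v
            · simp [hc, hx]
            · simp [hc]
          refine (Finset.sum_le_sum (fun c _ => this c)).trans ?_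
          rw [Finset.sum_add_distrib, Finset.sum_const, Finset.sum_ite_eq']
          simp
          linarith
    _ = (1 + r * x) ^ n := by simp

/-- The total overlap of a balanced partition with all partitions. -/
theorem total_overlap (S : Set (Fin r)) (f : Fin n → Fin r) (m : ℕ) (hm : 2 ≤ m) (hf : Bal m f) :
    ∑ g : Fin n → Fin r,
        ({G : SimpleGraph (Fin n) | Compat S f G ∧ Compat S g G}.ncard : ℝ) ≤
      2 ^ (crs f).card * ((r : ℝ) ^ n * (1 / 2) ^ (m * m) +
        (KS S).card * (1 + r * (1 / 2) ^ m) ^ n) := by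
  classical
  have h1 : ∀ g : Fin n → Fin r,
      ({G : SimpleGraph (Fin n) | Compat S f G ∧ Compat S g G}.ncard : ℝ) ≤
      2 ^ (crs f).card * ((1 / 2) ^ (m * m) +
        ∑ σ ∈ KS S, ((1 / 2 : ℝ) ^ m) ^ (univ.filter (fun v => g v ≠ σ (f v))).card) := by
    intro g
    have hnn : ∀ σ : Fin r → Fin r, (0 : ℝ) ≤
        ((1 / 2 : ℝ) ^ m) ^ (univ.filter (fun v => g v ≠ σ (f v))).card := fun σ => by positivity
    have h3 : (0 : ℝ) ≤ ∑ σ ∈ KS S,
        ((1 / 2 : ℝ) ^ m) ^ (univ.filter (fun v => g v ≠ σ (f v))).card :=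
        Finset.sum_nonneg (fun σ _ => hnn σ)
    have h4 : (0 : ℝ) ≤ (1 / 2) ^ (m * m) := by positivity
    by_cases hex : ∃ G, Compat S f G ∧ Compat S g G
    · obtain ⟨G, hG, hG'⟩ := hex
      have h5 : ({G : SimpleGraph (Fin n) | Compat S f G ∧ Compat S g G}.ncard : ℝ) ≤
          2 ^ (crs f).card * (1 / 2) ^ (crs f \ crs g).card := by
        have h1 := ncard_compat_two S f g
        have h2 : ({G : SimpleGraph (Fin n) | Compat S f G ∧ Compat S g G}.ncard : ℝ) ≤
            (2 : ℝ) ^ (crs f ∩ crs g).card := by exact_mod_cast h1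
        refine h2.trans (le_of_eq ?_)
        have h3 : (crs f).card = (crs f ∩ crs g).card + (crs f \ crs g).card := by
          rw [Finset.card_inter_add_card_sdiff]
        rw [h3, pow_add, mul_assoc, ← mul_pow]
        norm_num
      refine h5.trans (mul_le_mul_of_nonneg_left ?_ (by positivity))
      rcases overlap S f g m hm hf G hG hG' with h | ⟨σ, hσ, h⟩
      · have h2 : ((1 : ℝ) / 2) ^ (crs f \ crs g).card ≤ (1 / 2) ^ (m * m) :=
          pow_le_pow_of_le_one (by norm_num) (by norm_num) h
        linarith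
      · have h2 : ((1 : ℝ) / 2) ^ (crs f \ crs g).card ≤
            ((1 / 2 : ℝ) ^ m) ^ (univ.filter (fun v => g v ≠ σ (f v))).card := by
          rw [← pow_mul]
          exact pow_le_pow_of_le_one (by norm_num) (by norm_num) h
        have h6 := Finset.single_le_sum (f := fun σ : Fin r → Fin r =>
          ((1 / 2 : ℝ) ^ m) ^ (univ.filter (fun v => g v ≠ σ (f v))).card)
          (fun σ _ => hnn σ) hσ
        linarith
    · have : {G : SimpleGraph (Fin n) | Compat S f G ∧ Compat S g G} = ∅ := by
        ext G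
        simp only [Set.mem_ofPred_eq, Set.mem_empty_iff_false, iff_false]
        exact fun h => hex ⟨G, h⟩
      rw [this, Set.ncard_empty]
      push_cast
      positivity
  refine (Finset.sum_le_sum (fun g _ => h1 g)).trans ?_
  rw [← Finset.mul_sum]
  apply mul_le_mul_of_nonneg_left _ (by positivity)
  rw [Finset.sum_add_distrib, Finset.sum_comm]
  apply add_le_add
  · simp
  · have h2 : ∀ σ ∈ KS S, ∑ g : Fin n → Fin r,
        ((1 / 2 : ℝ) ^ m) ^ (univ.filter (fun v => g v ≠ σ (f v))).card ≤
          (1 + r * (1 / 2) ^ m) ^ n := fun σ _ =>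
      sum_pow_diff_le (fun v => σ (f v)) _ (by positivity)
    refine (Finset.sum_le_sum h2).trans ?_
    simp

end Pool.Agent.Q129.AAC
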