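import Pool.Agent.Q129.AAC.Bound

/-!
# The number of pairs between the parts
-/

set_option autoImplicit false

namespace Pool.Agent.Q129.AAC

open Finset

variable {n r : ℕ}

/-- The complete multipartite graph. -/
def KG (f : Fin n → Fin r) : SimpleGraph (Fin n) where
  Adj u v := f u ≠ f v
  symm := ⟨fun _ _ h => h.symm⟩
  loopless := ⟨fun _ h => h rfl⟩

theorem two_mul_crs (f : Fin n → Fin r) :
    2 * (crs f).card + ∑ i : Fin r, (univ.filter (fun v => f v = i)).card ^ 2 = n ^ 2 := by
  classical
  have h1 := SimpleGraph.sum_degrees_eq_twice_card_edges (KG f)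
  have h2 : (KG f).edgeFinset = crs f := by
    ext e
    induction e with
    | _ u v =>
      rw [SimpleGraph.mem_edgeFinset, SimpleGraph.mem_edgeSet, mem_crs, cross_mk]
      rfl
  rw [h2] at h1
  have h3 : ∀ v, (KG f).degree v + (univ.filter (fun w => f w = f v)).card = n := by
    intro v
    have h4 : (KG f).neighborFinset v = univ.filter (fun w => ¬ f w = f v) := by
      ext w
      simp only [SimpleGraph.mem_neighborFinset, mem_filter, mem_univ, true_and]
      exact ⟨fun h e => h e.symm, fun h e => h e.symm⟩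
    rw [← SimpleGraph.card_neighborFinset_eq_degree, h4, add_comm,
      Finset.card_filter_add_card_filter_not]
    simp
  have h5 : ∑ v, ((KG f).degree v + (univ.filter (fun w => f w = f v)).card) = n ^ 2 := by
    simp only [h3]
    simp [sq]
  rw [Finset.sum_add_distrib, h1] at h5
  rw [← h5]
  congr 1
  rw [← Finset.sum_fiberwise_of_maps_to (s := univ) (t := univ) (g := f) (fun _ _ => mem_univ _)]
  refine Finset.sum_congr rfl (fun i _ => ?_)
  have h6 : ∀ v ∈ univ.filter (fun v => f v = i), (univ.filter (fun w => f w = f v)).card =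
      (univ.filter (fun w => f w = i)).card := by
    intro v hv
    simp only [mem_filter, mem_univ, true_and] at hv
    rw [hv]
  rw [Finset.sum_congr rfl h6, Finset.sum_const, smul_eq_mul, sq]

theorem sum_parts (f : Fin n → Fin r) :
    ∑ i : Fin r, (univ.filter (fun v => f v = i)).card = n := by
  classical
  have h := Finset.card_eq_sum_card_fiberwise (s := (univ : Finset (Fin n)))
    (t := (univ : Finset (Fin r))) (f := f) (fun _ _ => mem_univ _)
  rw [← h]
  simp

/-- The residues modulo `r`. -/
def res (hr : 0 < r) : Fin n → Fin r := fun v => ⟨v.1 % r, Nat.mod_lt _ hr⟩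

theorem res_part (hr : 0 < r) (i : Fin r) :
    (univ.filter (fun v : Fin n => res hr v = i)).card ≤ n / r + 1 := by
  classical
  have h : (univ.filter (fun v : Fin n => res hr v = i)).card ≤ (range (n / r + 1)).card := by
    apply Finset.card_le_card_of_injOn (fun v => v.1 / r)
    · intro v hv
      have : v.1 / r < n / r + 1 := Nat.lt_succ_of_le (Nat.div_le_div_right v.2.le)
      simpa using this
    · intro v hv w hw he
      simp only [coe_filter, mem_univ, true_and, Set.mem_ofPred_eq] at hv hw
      have h1 : v.1 % r = w.1 % r := by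
        have := hv.trans hw.symm
        simpa [res, Fin.ext_iff] using this
      apply Fin.ext
      rw [← Nat.div_add_mod v.1 r, ← Nat.div_add_mod w.1 r, h1]
      simp only at he
      rw [he]
  simpa using h

/-- The number of pairs between the residue classes. -/
theorem crs_res (hr : 0 < r) :
    (n : ℝ) ^ 2 - (n : ℝ) ^ 2 / r - n ≤ 2 * ((crs (res hr : Fin n → Fin r)).card : ℝ) := by
  classical
  have h1 := two_mul_crs (res hr : Fin n → Fin r)
  have h2 : ∑ i : Fin r, (univ.filter (fun v : Fin n => res hr v = i)).card ^ 2 ≤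
      (n / r + 1) * n := by
    calc ∑ i : Fin r, (univ.filter (fun v : Fin n => res hr v = i)).card ^ 2
        ≤ ∑ i : Fin r, (n / r + 1) * (univ.filter (fun v : Fin n => res hr v = i)).card := by
          refine Finset.sum_le_sum (fun i _ => ?_)
          rw [sq]
          exact Nat.mul_le_mul_right _ (res_part hr i)
      _ = (n / r + 1) * n := by
          rw [← Finset.mul_sum, sum_parts]
  have h3 : (2 : ℝ) * ((crs (res hr : Fin n → Fin r)).card : ℝ) +
      ((∑ i : Fin r, (univ.filter (fun v : Fin n => res hr v = i)).card ^ 2 : ℕ) : ℝ) =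
        (n : ℝ) ^ 2 := by exact_mod_cast h1
  have h4 : ((∑ i : Fin r, (univ.filter (fun v : Fin n => res hr v = i)).card ^ 2 : ℕ) : ℝ) ≤
      (((n / r : ℕ) : ℝ) + 1) * n := by exact_mod_cast h2
  have h5 : ((n / r : ℕ) : ℝ) ≤ (n : ℝ) / r := Nat.cast_div_le
  have h6 : (((n / r : ℕ) : ℝ) + 1) * n ≤ ((n : ℝ) / r + 1) * n :=
    mul_le_mul_of_nonneg_right (by linarith) (Nat.cast_nonneg _)
  have h7 : ((n : ℝ) / r + 1) * n = (n : ℝ) ^ 2 / r + n := by ring
  linarith

/-- A partition with a small part has fewer pairs between the parts. -/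
theorem crs_unbal (f : Fin n → Fin r) (i : Fin r)
    (hi : ((univ.filter (fun v => f v = i)).card : ℝ) ≤ n / (2 * r)) :
    2 * ((crs f).card : ℝ) ≤ (n : ℝ) ^ 2 - (n : ℝ) ^ 2 / r - (n : ℝ) ^ 2 / (4 * r ^ 2) := by
  classical
  have hr : (0 : ℝ) < r := by
    have : 0 < r := (Nat.zero_le _).trans_lt i.2
    exact_mod_cast this
  have h1 := two_mul_crs f
  have h2 := sum_parts f
  set x : Fin r → ℝ := fun i => ((univ.filter (fun v => f v = i)).card : ℝ) with hx
  have h3 : 2 * ((crs f).card : ℝ) + ∑ i, x i ^ 2 = (n : ℝ) ^ 2 := by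
    have : ((2 * (crs f).card + ∑ i : Fin r, (univ.filter (fun v => f v = i)).card ^ 2 : ℕ) : ℝ) =
      ((n ^ 2 : ℕ) : ℝ) := by rw [h1]
    push_cast at this
    simpa [hx] using this
  have h4 : ∑ i, x i = (n : ℝ) := by
    have : ((∑ i : Fin r, (univ.filter (fun v => f v = i)).card : ℕ) : ℝ) = (n : ℝ) := by rw [h2]
    push_cast at this
    simpa [hx] using this
  have h5 : ∑ i, (x i - n / r) ^ 2 = ∑ i, x i ^ 2 - (n : ℝ) ^ 2 / r := by
    have : ∀ i, (x i - n / r) ^ 2 = x i ^ 2 - 2 * (n / r) * x i + (n / r) ^ 2 := fun i => by ring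
    simp only [this]
    rw [Finset.sum_add_distrib, Finset.sum_sub_distrib, ← Finset.mul_sum, h4]
    simp
    field_simp
    ring
  have h6 : (x i - n / r) ^ 2 ≤ ∑ i, (x i - n / r) ^ 2 :=
    Finset.single_le_sum (f := fun i => (x i - (n : ℝ) / r) ^ 2) (fun i _ => sq_nonneg _)
      (mem_univ i)
  have h7 : (n : ℝ) ^ 2 / (4 * r ^ 2) ≤ (x i - n / r) ^ 2 := by
    have h8 : (n : ℝ) / (2 * r) ≤ n / r - x i := by
      have : (n : ℝ) / r = n / (2 * r) + n / (2 * r) := by
        field_simp
        norm_num
      have hi' : x i ≤ n / (2 * r) := hi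
      linarith
    have h9 : (0 : ℝ) ≤ n / (2 * r) := by positivity
    calc (n : ℝ) ^ 2 / (4 * r ^ 2) = (n / (2 * r)) ^ 2 := by
          rw [div_pow, mul_pow]
          norm_num
      _ ≤ (n / r - x i) ^ 2 := pow_le_pow_left₀ h9 h8 2
      _ = (x i - n / r) ^ 2 := by ring
  linarith

end Pool.Agent.Q129.AAC
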